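import Pool.Agent.ASE.Stmts5

/-!
# Squad ASE, row FVA: the values of `F12`
-/

open scoped BigOperators

set_option autoImplicit false

noncomputable section

namespace Pool.Agent.PP.SE.H86

open Pool.Agent.Helper51_AWC Pool.Agent.Helper79_WRA Pool.Agent.PP Pool.Agent.PP.KF
open Pool.Agent.PP.K9 Pool.Agent.PP.K9.H97 Pool.Agent.PP.H75 Pool.Agent.PP.T3 Pool.Agent.PP.SO
open Pool.Agent.PP.SD Pool.Agent.PP.SE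

attribute [local instance] Ideal.Quotient.field

theorem hm_one {V₀ : Type} [CommGroup V₀] {ℓ : ℕ} {ρ : V₀ → ZMod ℓ} (h : Hm ρ) : ρ 1 = 0 := by
  have h1 := h 1 1
  rw [mul_one] at h1
  exact left_eq_add.1 h1

theorem fva : FvaStmt := by
  classical
  intro ℓ _ V₀ _ _ hexp n ρ₁ ρ₂ hn hm₁ hm₂ x₁ x₂ hx₁ hx₂ F₁₃ Ψ M₁ M₂ K hF kc kd
  have hlp : ℓ.Prime := Fact.out
  have hl0 : (ℓ : ℚ) ≠ 0 := Nat.cast_ne_zero.2 hlp.ne_zero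
  obtain ⟨r, hr, hnr⟩ := hn
  have hn1 : 1 < n := by
    rw [hnr]
    exact Nat.one_lt_pow hr.ne' hlp.one_lt
  have h1 : ρ₁ 1 = 0 := hm_one hm₁
  have h2 : ρ₂ 1 = 0 := hm_one hm₂
  have hfr : ∀ τ : Set (SO.SS n V₀), Fre τ → F12 ℓ x₁ x₂ Ψ M₁ M₂ K kc kd τ =
      (x₁ kc⁻¹ : ℚ) / ℓ * ((x₂ kd⁻¹ : ℚ) / ℓ) -
      K {u | ∃ s ∈ τ, (s.1 : ℕ) = 0 ∧ s.2 = u} -
      12 * (Ψ τ + (x₁ kc⁻¹ : ℚ) / ℓ * M₂ τ + (x₂ kd⁻¹ : ℚ) / ℓ * M₁ τ) := by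
    intro τ hτ
    unfold F12
    rw [if_pos hτ]
  refine ⟨?_, ?_, ?_, ?_, ?_, ?_⟩
  · intro τ hτ
    unfold F12
    rw [if_neg hτ]
  · intro τ hτ hs
    obtain ⟨e1, e2, e3⟩ := hF.e0 τ hτ hs
    have hK : K {u | ∃ s ∈ τ, (s.1 : ℕ) = 0 ∧ s.2 = u} = 0 := by
      apply hF.K0
      left
      rintro u ⟨s, hsτ, -, rfl⟩
      exact (hs s hsτ).1
    rw [hfr τ hτ, e1, e2, e3, hK]
    push_cast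
    field_simp
    ring
  · rintro κ₁ κ₂ I ⟨i, hiI, hi0⟩
    have hT : Fre ({s | s.1 ∈ I ∧ s.2.2.1 = κ₁ ^ (s.2.1 : ℕ) ∧
        s.2.2.2 = κ₂ ^ (s.2.1 : ℕ)} : Set (SO.SS n V₀)) := by
      rintro s ⟨-, ha, hb⟩ - hk
      rw [ha, hb, hk, pow_zero, pow_zero]
      exact ⟨rfl, rfl⟩
    obtain ⟨e1, e2, e3⟩ := hF.e1 _ hT (by
      rintro s ⟨-, ha, hb⟩
      exact ⟨(i, s.2), ⟨hiI, ha, hb⟩, hi0, rfl⟩) (by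
      rintro s ⟨-, ha, hb⟩ hk
      rw [ha, hb, hk, pow_zero, pow_zero]
      exact ⟨h1, h2⟩)
    have hK := hF.K1 {u | ∃ s ∈ ({s | s.1 ∈ I ∧ s.2.2.1 = κ₁ ^ (s.2.1 : ℕ) ∧
        s.2.2.2 = κ₂ ^ (s.2.1 : ℕ)} : Set (SO.SS n V₀)), (s.1 : ℕ) = 0 ∧ s.2 = u} κ₁ κ₂
      ⟨(⟨1, hn1⟩, κ₁, κ₂), ⟨(i, ⟨1, hn1⟩, κ₁, κ₂), ⟨hiI, (pow_one κ₁).symm, (pow_one κ₂).symm⟩,
        hi0, rfl⟩, rfl⟩ (by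
      rintro u ⟨s, ⟨-, ha, hb⟩, -, rfl⟩ hk
      refine Prod.ext ?_ ?_
      · change s.2.2.1 = κ₁
        rw [ha, hk, pow_one]
      · change s.2.2.2 = κ₂
        rw [hb, hk, pow_one])
    rw [hfr _ hT, e1, e2, e3, hK]
    push_cast
    field_simp
    ring
  · intro p₁ q₁ p₂ q₂
    have hT : Fre ({s | s.2.2.1 = p₁ ^ (s.1 : ℕ) * p₂ ^ (s.2.1 : ℕ) ∧
        s.2.2.2 = q₁ ^ (s.1 : ℕ) * q₂ ^ (s.2.1 : ℕ)} : Set (SO.SS n V₀)) := by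
      rintro s ⟨ha, hb⟩ hi hk
      rw [ha, hb, hk, hi]
      simp only [pow_zero, mul_one, and_self]
    obtain ⟨e1, e2, e3⟩ := hF.e2 p₁ q₁ p₂ q₂
    have hK := hF.K1 {u | ∃ s ∈ ({s | s.2.2.1 = p₁ ^ (s.1 : ℕ) * p₂ ^ (s.2.1 : ℕ) ∧
        s.2.2.2 = q₁ ^ (s.1 : ℕ) * q₂ ^ (s.2.1 : ℕ)} : Set (SO.SS n V₀)),
          (s.1 : ℕ) = 0 ∧ s.2 = u} p₂ q₂
      ⟨(⟨1, hn1⟩, p₂, q₂), ⟨(⟨0, by omega⟩, ⟨1, hn1⟩, p₂, q₂), ⟨by simp, by simp⟩,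
        rfl, rfl⟩, rfl⟩ (by
      rintro u ⟨s, ⟨ha, hb⟩, hi, rfl⟩ hk
      refine Prod.ext ?_ ?_
      · change s.2.2.1 = p₂
        rw [ha, hk, hi, pow_one, pow_zero, one_mul]
      · change s.2.2.2 = q₂
        rw [hb, hk, hi, pow_one, pow_zero, one_mul])
    rw [hfr _ hT, e1, e2, e3, hK]
    push_cast
    field_simp
    ring
  · intro p₁ q₁
    have hT : Fre ({s | ℓ ∣ (s.2.1 : ℕ) ∧ s.2.2.1 = p₁ ^ (s.1 : ℕ) ∧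
        s.2.2.2 = q₁ ^ (s.1 : ℕ)} : Set (SO.SS n V₀)) := by
      rintro s ⟨-, ha, hb⟩ hi hk
      rw [ha, hb, hi, pow_zero, pow_zero]
      exact ⟨rfl, rfl⟩
    obtain ⟨e1, e2, e3⟩ := hF.e2' p₁ q₁
    have hK : K {u | ∃ s ∈ ({s | ℓ ∣ (s.2.1 : ℕ) ∧ s.2.2.1 = p₁ ^ (s.1 : ℕ) ∧
        s.2.2.2 = q₁ ^ (s.1 : ℕ)} : Set (SO.SS n V₀)), (s.1 : ℕ) = 0 ∧ s.2 = u} = 0 := by
      apply hF.K0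
      left
      rintro u ⟨s, ⟨-, ha, hb⟩, hi, rfl⟩
      rw [ha, hi, pow_zero]
      exact h1
    rw [hfr _ hT, e1, e2, e3, hK]
    push_cast
    field_simp
    ring
  · intro p q i₀ hi₀
    have hT : Fre ({s | s.2.2.1 = p ^ (s.2.1 : ℕ) ∧ s.2.2.2 = q ^ (s.2.1 : ℕ) ∧
        (s.1 : ℕ) ≡ i₀ * (s.2.1 : ℕ) [MOD ℓ]} : Set (SO.SS n V₀)) := by
      rintro s ⟨ha, hb, -⟩ - hk
      rw [ha, hb, hk, pow_zero, pow_zero]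
      exact ⟨rfl, rfl⟩
    obtain ⟨e1, e2, e3⟩ := hF.e3 p q i₀ hi₀
    have hK : K {u | ∃ s ∈ ({s | s.2.2.1 = p ^ (s.2.1 : ℕ) ∧ s.2.2.2 = q ^ (s.2.1 : ℕ) ∧
        (s.1 : ℕ) ≡ i₀ * (s.2.1 : ℕ) [MOD ℓ]} : Set (SO.SS n V₀)),
          (s.1 : ℕ) = 0 ∧ s.2 = u} = 0 := by
      apply hF.K0
      left
      rintro u ⟨s, ⟨ha, -, hc⟩, hi, rfl⟩
      rw [hi] at hc
      have hd : ℓ ∣ i₀ * (s.2.1 : ℕ) := (Nat.modEq_zero_iff_dvd.1 hc.symm)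
      obtain ⟨k, hk⟩ := (hlp.dvd_mul.1 hd).resolve_left hi₀
      rw [ha, hk, pow_mul, hexp, one_pow]
      exact h1
    rw [hfr _ hT, e2, e3, hK]
    have hform : (ℓ : ℚ) ^ 2 * ((x₁ kc⁻¹ : ℚ) / ℓ * ((x₂ kd⁻¹ : ℚ) / ℓ) - 0 -
        12 * (Ψ ({s | s.2.2.1 = p ^ (s.2.1 : ℕ) ∧ s.2.2.2 = q ^ (s.2.1 : ℕ) ∧
        (s.1 : ℕ) ≡ i₀ * (s.2.1 : ℕ) [MOD ℓ]} : Set (SO.SS n V₀)) +
          (x₁ kc⁻¹ : ℚ) / ℓ * 0 + (x₂ kd⁻¹ : ℚ) / ℓ * 0)) =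
        ((x₁ kc⁻¹ * x₂ kd⁻¹ : ℤ) : ℚ) - ((12 : ℤ) : ℚ) * ((ℓ : ℚ) ^ 2 *
          Ψ ({s | s.2.2.1 = p ^ (s.2.1 : ℕ) ∧ s.2.2.2 = q ^ (s.2.1 : ℕ) ∧
        (s.1 : ℕ) ≡ i₀ * (s.2.1 : ℕ) [MOD ℓ]} : Set (SO.SS n V₀))) := by
      push_cast
      field_simp
      ring
    rw [hform]
    exact (SOR.Rl ℓ).sub_mem (intCast_mem (SOR.Rl ℓ) _)
      ((SOR.Rl ℓ).mul_mem (intCast_mem (SOR.Rl ℓ) _) e1)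

end Pool.Agent.PP.SE.H86
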