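import Pool.Agent.ASE.Stmts2
import Pool.Agent.Helper86_ASD.LNJ

/-!
# Squad ASE, row CNT: the number of characters of `b W`
-/

open scoped BigOperators

set_option autoImplicit false

noncomputable section

namespace Pool.Agent.PP.SE.H86

open Pool.Agent.Helper51_AWC Pool.Agent.Helper79_WRA Pool.Agent.PP Pool.Agent.PP.KF
open Pool.Agent.PP.K9 Pool.Agent.PP.K9.H97 Pool.Agent.PP.H75 Pool.Agent.PP.T3 Pool.Agent.PP.SO
open Pool.Agent.PP.SD Pool.Agent.PP.SE

attribute [local instance] Ideal.Quotient.field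

theorem cnt (gea : GeaStmt) (lnc : LncStmt) (rda : SD.RdaStmt) (kld : SD.KldStmt)
    (lnh : SD.LnhStmt) : CntStmt := by
  classical
  intro ℓ _ M _ hM hℓ V₀ G _ _ _ _ E₀ hE B hB W hW
  have _i : Fintype V₀ := Fintype.ofFinite V₀
  have _j : Fintype G := Fintype.ofFinite G
  have hlp : ℓ.Prime := Fact.out
  obtain ⟨⟨-, -, hcyc, -, -, -, hWb, -⟩, -, -, -, -, -, -, -, -, hreg⟩ := gea ℓ V₀ E₀ hE W hW
  obtain ⟨hS, B', hB', he, -, hi, hb, hC, -, -, hCh, -⟩ := rda ℓ M hM hℓ V₀ G E₀ hE B hB W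
  obtain ⟨h1, h2⟩ := kld ℓ M hM hℓ V₀ (B.C W) (St E₀ W) hS B' hB'
  -- the number of modular characters of `B'.e`
  have hnor : (W.map B'.i).Normal := by
    refine ⟨?_⟩
    rintro _ ⟨w, hw, rfl⟩ g
    have hg : B.i w * (g : G) = (g : G) * B.i w := by
      have h3 := g.2
      unfold Bk.C at h3
      exact Subgroup.mem_centralizer_iff.1 h3 _ ⟨w, hw, rfl⟩
    have h4 : g * B'.i w * g⁻¹ = B'.i w := by
      apply Subtype.ext
      change (g : G) * (B'.i w : G) * ((g : G))⁻¹ = (B'.i w : G)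
      rw [hi, ← hg, mul_inv_cancel_right]
    rw [h4]
    exact ⟨w, hw, rfl⟩
  have hln : ln B'.e = nS E₀ W := by
    rw [lnh ℓ M hM V₀ (B.C W) (St E₀ W) hS B' hB' W hWb hnor]
    exact lnc ℓ M hM hℓ V₀ (B.C W) (St E₀ W) hS B' hB' hcyc
  have hterm : ∀ v : V₀, Nat.card (Es (St E₀ W) v) *
      ln (fun t : B'.C (Subgroup.zpowers v) => B'.b (Subgroup.zpowers v) t) =
      if v ∈ W then nS E₀ W * nS E₀ W else 1 := by
    intro v
    by_cases hv : v ∈ W
    · rw [if_pos hv]
      have hsup : W ⊔ Subgroup.zpowers v = W := sup_eq_left.2 (by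
        rw [Subgroup.zpowers_le]
        exact hv)
      have hE1 : Es (St E₀ W) v = St E₀ W := by
        ext σ
        constructor
        · exact fun h => h.1
        · exact fun h => ⟨h, h.2 v hv⟩
      have htop : ∀ t : B.C W, t ∈ B'.C (Subgroup.zpowers v) := by
        intro t
        rw [hC, hsup]
        exact t.2
      have htop' : B'.C (Subgroup.zpowers v) = ⊤ := by
        rw [eq_top_iff]
        exact fun t _ => htop t
      have hl : ln (fun t : B'.C (Subgroup.zpowers v) => B'.b (Subgroup.zpowers v) t) =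
          ln B'.e := by
        refine SD.H86.lnj_ln ((MulEquiv.subgroupCongr htop').trans Subgroup.topEquiv) _ _ ?_
        intro t
        rw [hb, hsup, ← he]
        rfl
      rw [hE1, hl, hln]
      rfl
    · rw [if_neg hv]
      have hE1 : Es (St E₀ W) v = ⊥ := by
        rw [Subgroup.eq_bot_iff_forall]
        exact fun σ hσ => (hreg v hv).2 σ hσ.1 hσ.2
      have hR : Rw (St E₀ W) (Subgroup.zpowers v) := by
        refine ⟨?_, fun σ hσ h => (hreg v hv).2 σ hσ (h v (Subgroup.mem_zpowers v))⟩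
        intro h
        rw [Subgroup.zpowers_eq_bot] at h
        exact hv (h ▸ W.one_mem)
      rw [hE1, Subgroup.card_bot, h2 _ hR]
  have hcardW : (Finset.univ.filter (fun y => y ∈ W)).card = ℓ := by
    rw [← hW.1]
    rw [Nat.card_eq_fintype_card, Fintype.card_subtype]
  have hcardV : (Finset.univ : Finset V₀).card = ℓ ^ 2 := by
    rw [Finset.card_univ, ← Nat.card_eq_fintype_card, hE.cd]
  have hsumcard : (Finset.univ.filter (fun y => y ∈ W)).card +
      (Finset.univ.filter (fun y => ¬ y ∈ W)).card = (Finset.univ : Finset V₀).card :=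
    Finset.card_filter_add_card_filter_not (fun y => y ∈ W)
  rw [finsum_eq_sum_of_fintype, Finset.sum_congr rfl fun v _ => hterm v, Finset.sum_ite,
    Finset.sum_const, Finset.sum_const, hcardW, smul_eq_mul, smul_eq_mul, mul_one] at h1
  -- the characters
  have hfin : (IrrE M B'.e).Finite := by
    have h3 : (Irr (B.C W)).Finite := irr_finite'
    exact h3.subset fun θ hθ => hθ.1
  let ex : (B.C W → ℂ) → G → ℂ := fun θ g => if h : g ∈ B.C W then θ ⟨g, h⟩ else 0
  have hex : ∀ θ : B.C W → ℂ, (fun t : B.C W => ex θ t) = θ := by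
    intro θ
    funext t
    exact dif_pos t.2
  have hbij : Set.BijOn ex (IrrE M B'.e) (Ch B W) := by
    refine ⟨?_, ?_, ?_⟩
    · intro θ hθ
      rw [(hCh (ex θ) fun t ht => dif_neg ht).1, hex]
      exact hθ
    · intro θ _ θ' _ h
      rw [← hex θ, ← hex θ', h]
    · intro χ hχ
      refine ⟨fun t => χ t, (((hCh χ hχ.1).1).1 hχ), ?_⟩
      funext g
      by_cases hg : g ∈ B.C W
      · exact dif_pos hg
      · change (if h : g ∈ B.C W then χ g else 0) = χ g
        rw [dif_neg hg, hχ.1 g hg]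
  have hcard : (Ch B W).ncard = (IrrE M B'.e).ncard := by
    rw [← hbij.image_eq]
    exact Set.InjOn.ncard_image hbij.injOn
  refine ⟨hbij.image_eq ▸ hfin.image ex, ?_⟩
  rw [hcard]
  change Nat.card (St E₀ W) * (IrrE M B'.e).ncard = _
  rw [h1]
  rw [hcardW, hcardV] at hsumcard
  have h5 : (Finset.univ.filter (fun y => ¬ y ∈ W)).card = ℓ ^ 2 - ℓ := by omega
  rw [h5, mul_add, sq, sq, Nat.mul_sub, mul_one]

end Pool.Agent.PP.SE.H86
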