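import Pool.Agent.ASE.Stmts2b

/-!
# Squad ASE, row RFE: the field `d7` of `Rs` at a reflection line
-/

open scoped BigOperators

set_option autoImplicit false

noncomputable section

namespace Pool.Agent.PP.SE.H86

open Pool.Agent.Helper51_AWC Pool.Agent.Helper79_WRA Pool.Agent.PP Pool.Agent.PP.KF
open Pool.Agent.PP.K9 Pool.Agent.PP.K9.H97 Pool.Agent.PP.H75 Pool.Agent.PP.T3 Pool.Agent.PP.SO
open Pool.Agent.PP.SD Pool.Agent.PP.SE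

attribute [local instance] Ideal.Quotient.field

theorem lk_one {V₀ : Type} [CommGroup V₀] (W : Subgroup V₀) : (fun _ => (1 : ℂ)) ∈ lk W :=
  ⟨⟨rfl, fun _ _ => (mul_one _).symm⟩, fun _ _ => rfl⟩

theorem nu_mul {V₀ G : Type} [CommGroup V₀] [Group G] {M : Ideal (integralClosure ℤ ℂ)}
    [M.IsMaximal] {B : Bk (FF M) V₀ G} {W : Subgroup V₀} {χ : G → ℂ}
    (h : ∀ w ∈ W, ∀ g, χ (B.i w * g) = nu B χ w * χ g) {w : V₀} (hw : w ∈ W) (w' : V₀) :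
    nu B χ (w * w') = nu B χ w * nu B χ w' := by
  have h1 : nu B χ (w * w') = χ (B.i w * B.i w') / χ 1 := by
    unfold nu
    rw [map_mul]
  rw [h1, h w hw, mul_div_assoc]
  rfl

theorem rq_symm {V₀ G : Type} [CommGroup V₀] [Group G] {M : Ideal (integralClosure ℤ ℂ)}
    [M.IsMaximal] {ℓ : ℕ} {B : Bk (FF M) V₀ G} {W : Subgroup V₀} {χ ψ : G → ℂ}
    (h : rq ℓ B W χ ψ) : rq ℓ B W ψ χ := fun g hg hr => (h g hg hr).symm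

theorem rq_trans {V₀ G : Type} [CommGroup V₀] [Group G] {M : Ideal (integralClosure ℤ ℂ)}
    [M.IsMaximal] {ℓ : ℕ} {B : Bk (FF M) V₀ G} {W : Subgroup V₀} {χ ψ φ : G → ℂ}
    (h : rq ℓ B W χ ψ) (h' : rq ℓ B W ψ φ) : rq ℓ B W χ φ :=
  fun g hg hr => (h g hg hr).trans (h' g hg hr)

theorem rfe (gea : GeaStmt) (vxm : VxmStmt) (snu : SnuStmt) (val : ValStmt) : RfeStmt := by
  classical
  intro ℓ _ M _ hM hℓ V₀ G _ _ _ _ E₀ hE B hB W hW N e O hC D hD ψ hψ ψ' hψ' z hz c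
  have hlp : ℓ.Prime := Fact.out
  have hl0 : (ℓ : ℂ) ≠ 0 := by exact_mod_cast hlp.ne_zero
  have hn0 : (nS E₀ W : ℂ) ≠ 0 := by
    have := hW.2
    exact_mod_cast (by omega : nS E₀ W ≠ 0)
  obtain ⟨-, hpr1, -⟩ := gea ℓ V₀ E₀ hE W hW
  obtain ⟨-, -, -, hs3, hs4⟩ := snu ℓ M hM hℓ V₀ G E₀ hE B hB W hW N e O hC
  obtain ⟨-, -, -, hv4, -⟩ := val ℓ M hM hℓ V₀ G E₀ hE B hB W hW N e O hC D hD
  by_cases hN : ψ ∈ N ∧ ψ' ∈ N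
  swap
  · have h0 : D.R W ψ ψ' = 0 := by rw [hD.dR ψ hψ ψ' hψ', if_neg hN]
    rw [h0, mul_zero, ite_self]
    rw [← finsum_mem_zero (Ch B W)]
    apply finsum_mem_congr rfl
    intro χ hχ
    by_cases h1 : ψ ∈ N ∧ χ ∈ N
    · have h2 : ¬ (χ ∈ N ∧ ψ' ∈ N) := fun h3 => hN ⟨h1.1, h3.2⟩
      rw [hD.dR χ hχ ψ' hψ', if_neg h2, mul_zero]
    · rw [hD.dR ψ hψ χ hχ, if_neg h1, zero_mul, zero_mul]
  obtain ⟨hψN, hψ'N⟩ := hN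
  obtain ⟨n, hn⟩ : ∃ n : ℂ, n = (nS E₀ W : ℂ) := ⟨_, rfl⟩
  obtain ⟨u, hu⟩ : ∃ u : ℂ, u = ((ux D.U W c : ℚ) : ℂ) := ⟨_, rfl⟩
  obtain ⟨f, hf⟩ : ∃ f : (G → ℂ) → ℂ, f = fun χ => n * u * ((e ψ : ℂ) * e ψ' / (ℓ : ℂ) ^ 2) *
    (((if rq ℓ B W χ ψ then 1 else 0) - n⁻¹) * ((if rq ℓ B W χ ψ' then 1 else 0) - n⁻¹)) :=
    ⟨_, rfl⟩
  have hP : pr ℓ E₀ W c * z ∈ W := W.mul_mem (hpr1 c).1 hz
  have hfc : ∀ χ ∈ Ch B W, ∀ φ ∈ Ch B W, χ ∈ N → φ ∈ N → rq ℓ B W χ φ → f χ = f φ := by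
    intro χ _ φ _ _ _ h
    have h1 : rq ℓ B W χ ψ ↔ rq ℓ B W φ ψ :=
      ⟨fun h2 => rq_trans (rq_symm h) h2, fun h2 => rq_trans h h2⟩
    have h2 : rq ℓ B W χ ψ' ↔ rq ℓ B W φ ψ' :=
      ⟨fun h2 => rq_trans (rq_symm h) h2, fun h2 => rq_trans h h2⟩
    rw [hf]
    simp only [h1, h2]
  have h1 : ∑ᶠ χ ∈ Ch B W, D.R W ψ χ * (nu B χ z * cv (fm ℓ E₀ B D W c) χ) * D.R W χ ψ' =
      ∑ᶠ χ ∈ {χ | χ ∈ Ch B W ∧ χ ∈ N},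
        D.R W ψ χ * (nu B χ z * cv (fm ℓ E₀ B D W c) χ) * D.R W χ ψ' := by
    apply finsum_mem_inter_support_eq
    ext χ
    rw [Set.mem_inter_iff, Set.mem_inter_iff, Function.mem_support]
    constructor
    · rintro ⟨h2, h3⟩
      refine ⟨⟨h2, ?_⟩, h3⟩
      by_contra h4
      apply h3
      rw [hD.dR ψ hψ χ h2, if_neg (fun h5 => h4 h5.2), zero_mul, zero_mul]
    · rintro ⟨h2, h3⟩
      exact ⟨h2.1, h3⟩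
  have h2 : ∑ᶠ χ ∈ {χ | χ ∈ Ch B W ∧ χ ∈ N},
        D.R W ψ χ * (nu B χ z * cv (fm ℓ E₀ B D W c) χ) * D.R W χ ψ' =
      ∑ᶠ χ ∈ {χ | χ ∈ Ch B W ∧ χ ∈ N}, nu B χ (pr ℓ E₀ W c * z) * f χ := by
    apply finsum_mem_congr rfl
    rintro χ ⟨hχ, hχN⟩
    obtain ⟨-, ⟨-, -, -, hx4, hx5, -⟩, -⟩ := vxm ℓ M hM hℓ V₀ G E₀ hE B hB W hW χ hχ
    obtain ⟨ν, hν, hχν⟩ := hx4
    have hsg : (e χ : ℂ) * e χ = 1 := by
      rcases (hC.lv ν hν).sg χ hχν with h | h <;> rw [h] <;> norm_num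
    rw [nu_mul hx5 (hpr1 c).1, (hv4 χ hχ hχN).2 c, hD.dR ψ hψ χ hχ, hD.dR χ hχ ψ' hψ',
      if_pos (show ψ ∈ N ∧ χ ∈ N from ⟨hψN, hχN⟩), if_pos (show χ ∈ N ∧ ψ' ∈ N from ⟨hχN, hψ'N⟩),
      hf, ← hn, ← hu]
    have h3 : rq ℓ B W ψ χ ↔ rq ℓ B W χ ψ := ⟨rq_symm, rq_symm⟩
    simp only [h3]
    linear_combination (n * u * nu B χ z * nu B χ (pr ℓ E₀ W c) * e ψ * e ψ' *
      ((if rq ℓ B W χ ψ then 1 else 0) - n⁻¹) * ((if rq ℓ B W χ ψ' then 1 else 0) - n⁻¹) /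
        (ℓ : ℂ) ^ 2) * hsg
  rw [h1, h2, (hs3 f hfc).2 _ hP]
  by_cases hP1 : pr ℓ E₀ W c * z = 1
  swap
  · rw [if_neg hP1, if_neg hP1]
  rw [if_pos hP1, if_pos hP1]
  obtain ⟨hcard, hfin, -⟩ := hs4 _ (lk_one (kW E₀ W))
  have hS := (hs4 _ (lk_one (kW E₀ W))).2.2
  rw [finsum_mem_eq_finite_toFinset_sum _ hfin]
  have e1 := hS ψ hψ hψN
  have e2 := hS ψ' hψ' hψ'N
  rw [finsum_mem_eq_finite_toFinset_sum _ hfin] at e1 e2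
  have e3 : (hfin.toFinset.card : ℂ) = n := by
    rw [hn, ← hcard, Set.ncard_eq_toFinset_card _ hfin]
  have e4 : ∑ χ ∈ hfin.toFinset, (if rq ℓ B W χ ψ then (1 : ℂ) else 0) *
      (if rq ℓ B W χ ψ' then 1 else 0) = if rq ℓ B W ψ ψ' then 1 else 0 := by
    have e5 : ∀ χ ∈ hfin.toFinset, (if rq ℓ B W χ ψ then (1 : ℂ) else 0) *
      (if rq ℓ B W χ ψ' then 1 else 0) = (if rq ℓ B W χ ψ then (1 : ℂ) else 0) *
        (if rq ℓ B W ψ ψ' then 1 else 0) := by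
      intro χ _
      by_cases h3 : rq ℓ B W χ ψ
      · have h4 : rq ℓ B W χ ψ' ↔ rq ℓ B W ψ ψ' :=
          ⟨fun h5 => rq_trans (rq_symm h3) h5, fun h5 => rq_trans h3 h5⟩
        simp only [h4]
      · rw [if_neg h3, zero_mul, zero_mul]
    rw [Finset.sum_congr rfl e5, ← Finset.sum_mul, e1, one_mul]
  have hn0' : n ≠ 0 := by rw [hn]; exact hn0
  have e6 : ∑ χ ∈ hfin.toFinset, f χ = n * u * ((e ψ : ℂ) * e ψ' / (ℓ : ℂ) ^ 2) *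
      ((if rq ℓ B W ψ ψ' then 1 else 0) - n⁻¹) := by
    rw [hf, ← Finset.mul_sum]
    congr 1
    have e7 : ∀ χ ∈ hfin.toFinset, ((if rq ℓ B W χ ψ then 1 else 0) - n⁻¹) *
        ((if rq ℓ B W χ ψ' then 1 else 0) - n⁻¹) = (if rq ℓ B W χ ψ then (1 : ℂ) else 0) *
      (if rq ℓ B W χ ψ' then 1 else 0) - n⁻¹ * (if rq ℓ B W χ ψ then (1 : ℂ) else 0) -
        n⁻¹ * (if rq ℓ B W χ ψ' then (1 : ℂ) else 0) + n⁻¹ * n⁻¹ := by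
      intro χ _
      ring
    rw [Finset.sum_congr rfl e7, Finset.sum_add_distrib, Finset.sum_sub_distrib,
      Finset.sum_sub_distrib, e4, ← Finset.mul_sum, ← Finset.mul_sum, e1, e2, Finset.sum_const,
      nsmul_eq_mul, e3, ← mul_assoc, mul_inv_cancel₀ hn0']
    ring
  rw [e6, hD.dR ψ hψ ψ' hψ', if_pos (show ψ ∈ N ∧ ψ' ∈ N from ⟨hψN, hψ'N⟩), ← hn, ← hu]
  field_simp

end Pool.Agent.PP.SE.H86
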