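import Pool.Agent.ASE.Stmts2b
import Pool.Agent.Helper86_ASE.RFE

/-!
# Squad ASE, row RFK: the field `e6` of `Rs` at a reflection line
-/

open scoped BigOperators

set_option autoImplicit false

noncomputable section

namespace Pool.Agent.PP.SE.H86

open Pool.Agent.Helper51_AWC Pool.Agent.Helper79_WRA Pool.Agent.PP Pool.Agent.PP.KF
open Pool.Agent.PP.K9 Pool.Agent.PP.K9.H97 Pool.Agent.PP.H75 Pool.Agent.PP.T3 Pool.Agent.PP.SO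
open Pool.Agent.PP.SD Pool.Agent.PP.SE

attribute [local instance] Ideal.Quotient.field

theorem rfk_Rl_RM {ℓ : ℕ} [Fact ℓ.Prime] {M : Ideal (integralClosure ℤ ℂ)} [M.IsMaximal]
    (hM : (ℓ : integralClosure ℤ ℂ) ∈ M) {q : ℚ} (hq : q ∈ SOR.Rl ℓ) : ((q : ℚ) : ℂ) ∈ RM M := by
  have h1 : ¬ ℓ ∣ q.den := hq
  have h2 := inv_nat_RM (M := M) (Fact.out : ℓ.Prime) hM h1
  have h3 : ((q : ℚ) : ℂ) = (q.num : ℂ) * ((q.den : ℕ) : ℂ)⁻¹ := by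
    rw [← div_eq_mul_inv]
    exact_mod_cast (Rat.num_div_den q).symm
  rw [h3]
  exact (RM M).mul_mem (intCast_mem _ _) h2

theorem rq_one {V₀ G : Type} [CommGroup V₀] [Group G] {M : Ideal (integralClosure ℤ ℂ)}
    [M.IsMaximal] {ℓ : ℕ} {B : Bk (FF M) V₀ G} {W : Subgroup V₀} {χ ψ : G → ℂ}
    (h : rq ℓ B W χ ψ) : χ 1 = ψ 1 := by
  apply h 1 (B.C W).one_mem
  unfold Reg
  rw [orderOf_one]
  exact Nat.coprime_one_left ℓ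

/-- conjugation with an element which normalises `i(W)` preserves `rq` -/
theorem rq_ac {V₀ G : Type} [CommGroup V₀] [Group G] {M : Ideal (integralClosure ℤ ℂ)}
    [M.IsMaximal] {ℓ : ℕ} {B : Bk (FF M) V₀ G} {W : Subgroup V₀} {σ : MulAut V₀}
    (ht : ∀ v, tt B σ * B.i v * (tt B σ)⁻¹ = B.i (σ v)) (hW : mp σ W = W) {χ ψ : G → ℂ}
    (h : rq ℓ B W χ ψ) : rq ℓ B W (ac B σ χ) (ac B σ ψ) := by
  intro g hg hr
  have h1 : (tt B σ)⁻¹ * g * tt B σ ∈ B.C W := by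
    unfold Bk.C at hg ⊢
    rw [Subgroup.mem_centralizer_iff] at hg ⊢
    rintro _ ⟨w, hw, rfl⟩
    have hσw : σ w ∈ W := by
      rw [← hW]
      exact ⟨w, hw, rfl⟩
    have h2 := hg (B.i (σ w)) ⟨σ w, hσw, rfl⟩
    rw [← ht w] at h2
    have h3 : (tt B σ)⁻¹ * (tt B σ * B.i w * (tt B σ)⁻¹ * g) * tt B σ =
        (tt B σ)⁻¹ * (g * (tt B σ * B.i w * (tt B σ)⁻¹)) * tt B σ := by rw [h2]
    calc B.i w * ((tt B σ)⁻¹ * g * tt B σ) =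
        (tt B σ)⁻¹ * (tt B σ * B.i w * (tt B σ)⁻¹ * g) * tt B σ := by group
      _ = (tt B σ)⁻¹ * (g * (tt B σ * B.i w * (tt B σ)⁻¹)) * tt B σ := h3
      _ = (tt B σ)⁻¹ * g * tt B σ * B.i w := by group
  have h2 : Reg ℓ ((tt B σ)⁻¹ * g * tt B σ) := by
    unfold Reg at hr ⊢
    have h3 : (tt B σ)⁻¹ * g * tt B σ = (MulAut.conj (tt B σ)⁻¹) g := by
      rw [MulAut.conj_apply, inv_inv]
    rw [h3, MulEquiv.orderOf_eq]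
    exact hr
  exact h _ h1 h2

theorem rfk (gea : GeaStmt) (vxm : VxmStmt) (snu : SnuStmt) (val : ValStmt) (rfj : RfjStmt)
    (acb : AcbStmt) : RfkStmt := by
  classical
  intro ℓ _ M _ hM hℓ V₀ G _ _ _ _ E₀ hE B hB W hW N e O hC D hD hEv κ hκ τ hτ y
  have hlp : ℓ.Prime := Fact.out
  have hl0 : (ℓ : ℂ) ≠ 0 := by exact_mod_cast hlp.ne_zero
  have hn0 : (nS E₀ W : ℂ) ≠ 0 := by
    have := hW.2
    exact_mod_cast (by omega : nS E₀ W ≠ 0)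
  obtain ⟨⟨-, hnl, -⟩, hpr1, -, hprW, -⟩ := gea ℓ V₀ E₀ hE W hW
  obtain ⟨-, -, -, hs3, hs4⟩ := snu ℓ M hM hℓ V₀ G E₀ hE B hB W hW N e O hC
  obtain ⟨-, ⟨q', hq', hU⟩, -, hv4, hv5⟩ := val ℓ M hM hℓ V₀ G E₀ hE B hB W hW N e O hC D hD
  obtain ⟨⟨q, hq, hsum⟩, -⟩ := rfj ℓ M hM hℓ V₀ G E₀ hE B hB W hW N e O hC D hD
  obtain ⟨hact, hacb⟩ := acb ℓ M hM hℓ V₀ G E₀ hE B hB.toSb
  obtain ⟨n, hn⟩ : ∃ n : ℂ, n = (nS E₀ W : ℂ) := ⟨_, rfl⟩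
  have hn0' : n ≠ 0 := by rw [hn]; exact hn0
  have hninv : n⁻¹ ∈ RM M := by
    rw [hn]
    exact inv_nat_RM hlp hM hnl
  obtain ⟨f, hf⟩ : ∃ f : (G → ℂ) → ℂ, f = fun χ => cv (D.et W) χ := ⟨_, rfl⟩
  -- basic facts on `N`
  have hx : ∀ χ ∈ Ch B W, (e χ : ℂ) * e χ = 1 ∧ (∀ w ∈ W, ∀ g, χ (B.i w * g) = nu B χ w * χ g) ∧
      ∀ w ∈ W, starRingEnd ℂ (nu B χ w) = nu B χ w⁻¹ := by
    intro χ hχ
    obtain ⟨-, ⟨-, -, -, ⟨ν, hν, hχν⟩, hx5, hx6⟩, -⟩ := vxm ℓ M hM hℓ V₀ G E₀ hE B hB W hW χ hχ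
    refine ⟨?_, hx5, fun w hw => (hx6 w hw).1⟩
    rcases (hC.lv ν hν).sg χ hχν with h | h <;> rw [h] <;> norm_num
  have hfX : ∀ χ ∈ Ch B W, χ ∉ N → f χ = 0 := by
    intro χ hχ hχN
    rw [hf]
    exact (hv5 χ hχ hχN).1
  have hfN : ∀ χ ∈ Ch B W, χ ∈ N → f χ / ℓ ∈ RM M := by
    intro χ hχ hχN
    obtain ⟨⟨u, ⟨q₁, hq₁, hu⟩, -, hcv⟩, -⟩ := hv4 χ hχ hχN
    have h1 : f χ / ℓ = (((nS E₀ W : ℚ) * (q₁ - q') : ℚ) : ℂ) := by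
      rw [hf]
      change cv (D.et W) χ / ℓ = _
      rw [hcv, hu, hU, div_eq_iff hl0]
      push_cast
      ring
    rw [h1]
    exact rfk_Rl_RM hM ((SOR.Rl ℓ).mul_mem (natCast_mem _ _) ((SOR.Rl ℓ).sub_mem hq₁ hq'))
  have hfc : ∀ χ ∈ Ch B W, ∀ φ ∈ Ch B W, χ ∈ N → φ ∈ N → rq ℓ B W χ φ → f χ = f φ := by
    intro χ hχ φ hφ hχN hφN h
    obtain ⟨⟨u, -, hu, hcv⟩, -⟩ := hv4 χ hχ hχN
    obtain ⟨⟨u', -, hu', hcv'⟩, -⟩ := hv4 φ hφ hφN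
    have h1 : (u : ℂ) = (u' : ℂ) := by
      rw [← hu, ← hu', (hC.se χ hχ φ hφ h).1, rq_one h]
    have h2 : u = u' := by exact_mod_cast h1
    rw [hf]
    change cv (D.et W) χ = cv (D.et W) φ
    rw [hcv, hcv', h2]
  have hred : ∀ F : (G → ℂ) → ℂ, (∀ χ ∈ Ch B W, χ ∉ N → F χ = 0) →
      ∑ᶠ χ ∈ Ch B W, F χ = ∑ᶠ χ ∈ {χ | χ ∈ Ch B W ∧ χ ∈ N}, F χ := by
    intro F hF
    apply finsum_mem_inter_support_eq
    ext χ
    rw [Set.mem_inter_iff, Set.mem_inter_iff, Function.mem_support]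
    constructor
    · rintro ⟨h2, h3⟩
      refine ⟨⟨h2, ?_⟩, h3⟩
      by_contra h4
      exact h3 (hF χ h2 h4)
    · rintro ⟨h2, h3⟩
      exact ⟨h2.1, h3⟩
  -- the first part
  obtain ⟨P, hP⟩ : ∃ P : V₀, P = κ * ((pr ℓ E₀ W y)⁻¹ * pr ℓ E₀ W (τ y)) := ⟨_, rfl⟩
  have hPW : P ∈ W := by
    rw [hP]
    exact W.mul_mem hκ (W.mul_mem (W.inv_mem (hpr1 y).1) (hpr1 (τ y)).1)
  have h1 : ∑ᶠ χ ∈ Ch B W, nu B χ κ * cv (D.et W) χ *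
      (starRingEnd ℂ (D.D W χ y) * D.D W χ (τ y)) =
      ∑ᶠ χ ∈ {χ | χ ∈ Ch B W ∧ χ ∈ N}, nu B χ P * f χ := by
    rw [hred _ (by
      intro χ hχ hχN
      have h2 := hfX χ hχ hχN
      rw [hf] at h2
      change cv (D.et W) χ = 0 at h2
      rw [h2, mul_zero, zero_mul])]
    apply finsum_mem_congr rfl
    rintro χ ⟨hχ, hχN⟩
    obtain ⟨hs, hm, hcj⟩ := hx χ hχ
    rw [hD.dD χ hχ, hD.dD χ hχ, if_pos hχN, if_pos hχN, map_mul, hcj _ (hpr1 y).1, hP, nu_mul hm hκ,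
      nu_mul hm (W.inv_mem (hpr1 y).1), hf]
    have h3 : starRingEnd ℂ (e χ : ℂ) = e χ := map_intCast (starRingEnd ℂ) (e χ)
    rw [h3]
    linear_combination (nu B χ κ * cv (D.et W) χ * nu B χ (pr ℓ E₀ W y)⁻¹ *
      nu B χ (pr ℓ E₀ W (τ y))) * hs
  have hpart1 : ((ℓ : ℂ) ^ 2 * (nS E₀ W : ℂ) ^ 2)⁻¹ * (∑ᶠ χ ∈ Ch B W, nu B χ κ *
      cv (D.et W) χ * (starRingEnd ℂ (D.D W χ y) * D.D W χ (τ y))) / ℓ ∈ RM M := by
    rw [h1, (hs3 f hfc).2 P hPW]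
    by_cases hP1 : P = 1
    · rw [if_pos hP1]
      have h2 : ∑ᶠ χ ∈ {χ | χ ∈ Iv B W (fun _ => 1) ∧ χ ∈ N}, f χ = ((ℓ ^ 2 * q : ℚ) : ℂ) := by
        rw [hf]
        exact hsum
      rw [h2, ← hn]
      have h3 : ((ℓ : ℂ) ^ 2 * n ^ 2)⁻¹ * ((ℓ : ℂ) * ((ℓ ^ 2 * q : ℚ) : ℂ)) / ℓ =
          n⁻¹ * (n⁻¹ * (q : ℂ)) := by
        push_cast
        field_simp
      rw [h3]
      exact (RM M).mul_mem hninv ((RM M).mul_mem hninv (rfk_Rl_RM hM hq))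
    · rw [if_neg hP1, mul_zero, zero_div]
      exact (RM M).zero_mem
  -- the second part
  have hpart2 : (if mp τ W = W ∧ y ∈ W then (nS E₀ W : ℂ)⁻¹ * ∑ᶠ χ ∈ Ch B W, nu B χ κ *
      cv (D.et W) χ * (nu B χ (τ y * y⁻¹) * D.R W χ (ac B τ⁻¹ χ)) else 0) / ℓ ∈ RM M := by
    by_cases hc : mp τ W = W ∧ y ∈ W
    swap
    · rw [if_neg hc, zero_div]
      exact (RM M).zero_mem
    rw [if_pos hc]
    obtain ⟨hτW, hyW⟩ := hc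
    have hτy : τ y ∈ W := by
      rw [← hτW]
      exact ⟨y, hyW, rfl⟩
    have hτ' : τ⁻¹ ∈ E₀ := E₀.inv_mem hτ
    have hτW' : mp τ⁻¹ W = W := by
      ext v
      constructor
      · rintro ⟨w, hw, rfl⟩
        have h2 : w ∈ mp τ W := by rw [hτW]; exact hw
        obtain ⟨w', hw', h3⟩ := h2
        have h4 : τ w' = w := h3
        change τ⁻¹ w ∈ W
        rw [← h4, MulAut.inv_apply_self]
        exact hw'
      · intro hv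
        have h2 : τ v ∈ W := by
          rw [← hτW]
          exact ⟨v, hv, rfl⟩
        exact ⟨τ v, h2, MulAut.inv_apply_self V₀ τ v⟩
    obtain ⟨g, hg⟩ : ∃ g : (G → ℂ) → ℂ, g = fun χ => f χ *
      ((if rq ℓ B W χ (ac B τ⁻¹ χ) then 1 else 0) - n⁻¹) / ℓ := ⟨_, rfl⟩
    have hact' := (hact τ⁻¹ hτ').2
    have hgc : ∀ χ ∈ Ch B W, ∀ φ ∈ Ch B W, χ ∈ N → φ ∈ N → rq ℓ B W χ φ → g χ = g φ := by
      intro χ hχ φ hφ hχN hφN h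
      have h2 := rq_ac hact' hτW' h
      have h3 : rq ℓ B W χ (ac B τ⁻¹ χ) ↔ rq ℓ B W φ (ac B τ⁻¹ φ) :=
        ⟨fun h4 => rq_trans (rq_symm h) (rq_trans h4 h2),
          fun h4 => rq_trans h (rq_trans h4 (rq_symm h2))⟩
      rw [hg]
      simp only [h3, hfc χ hχ φ hφ hχN hφN h]
    have hQW : κ * (τ y * y⁻¹) ∈ W := W.mul_mem hκ (W.mul_mem hτy (W.inv_mem hyW))
    have h2 : ∑ᶠ χ ∈ Ch B W, nu B χ κ * cv (D.et W) χ *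
        (nu B χ (τ y * y⁻¹) * D.R W χ (ac B τ⁻¹ χ)) =
        ∑ᶠ χ ∈ {χ | χ ∈ Ch B W ∧ χ ∈ N}, nu B χ (κ * (τ y * y⁻¹)) * g χ := by
      rw [hred _ (by
        intro χ hχ hχN
        have h2 := hfX χ hχ hχN
        rw [hf] at h2
        change cv (D.et W) χ = 0 at h2
        rw [h2, mul_zero, zero_mul])]
      apply finsum_mem_congr rfl
      rintro χ ⟨hχ, hχN⟩
      obtain ⟨hs, hm, hcj⟩ := hx χ hχ
      obtain ⟨he1, he2⟩ := hEv τ⁻¹ hτ' hτW' χ hχ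
      have h4 : ac B τ⁻¹ χ ∈ Ch B W := by
        have h5 := ((hacb W τ⁻¹ hτ').2.2.1 χ hχ).1
        rwa [hτW'] at h5
      rw [hD.dR χ hχ _ h4, if_pos (show χ ∈ N ∧ ac B τ⁻¹ χ ∈ N from ⟨hχN, he1.2 hχN⟩), he2,
        nu_mul hm hκ, hg, hf, ← hn]
      change _ = nu B χ κ * nu B χ (τ y * y⁻¹) * (cv (D.et W) χ *
        ((if rq ℓ B W χ (ac B τ⁻¹ χ) then 1 else 0) - n⁻¹) / ℓ)
      linear_combination (nu B χ κ * cv (D.et W) χ * nu B χ (τ y * y⁻¹) *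
        ((if rq ℓ B W χ (ac B τ⁻¹ χ) then 1 else 0) - n⁻¹) / ℓ) * hs
    rw [h2, (hs3 g hgc).2 _ hQW]
    by_cases hQ1 : κ * (τ y * y⁻¹) = 1
    · rw [if_pos hQ1]
      have h3 : (nS E₀ W : ℂ)⁻¹ * ((ℓ : ℂ) *
          ∑ᶠ χ ∈ {χ | χ ∈ Iv B W (fun _ => 1) ∧ χ ∈ N}, g χ) / ℓ = n⁻¹ *
          ∑ᶠ χ ∈ {χ | χ ∈ Iv B W (fun _ => 1) ∧ χ ∈ N}, g χ := by
        rw [← hn]
        field_simp
      rw [h3]
      refine (RM M).mul_mem hninv ?_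
      have hfin := (hs4 _ (lk_one (kW E₀ W))).2.1
      rw [finsum_mem_eq_finite_toFinset_sum _ hfin]
      apply (RM M).sum_mem
      intro χ hχ
      obtain ⟨hχI, hχN⟩ := (Set.Finite.mem_toFinset hfin).1 hχ
      have h4 : g χ = f χ / ℓ * ((if rq ℓ B W χ (ac B τ⁻¹ χ) then 1 else 0) - n⁻¹) := by
        rw [hg]
        ring
      rw [h4]
      refine (RM M).mul_mem (hfN χ hχI.1 hχN) ((RM M).sub_mem ?_ hninv)
      by_cases h5 : rq ℓ B W χ (ac B τ⁻¹ χ)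
      · rw [if_pos h5]
        exact (RM M).one_mem
      · rw [if_neg h5]
        exact (RM M).zero_mem
    · rw [if_neg hQ1, mul_zero, zero_div]
      exact (RM M).zero_mem
  have h := (RM M).add_mem hpart1 hpart2
  rw [← add_div] at h
  exact h

end Pool.Agent.PP.SE.H86
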