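import Pool.Agent.ASE.Stmts2

/-!
# Squad ASE, row RPV: the values of `rip` for characters with the same central character
-/

open scoped BigOperators

set_option autoImplicit false

noncomputable section

namespace Pool.Agent.PP.SE.H86

open Pool.Agent.Helper51_AWC Pool.Agent.Helper79_WRA Pool.Agent.PP Pool.Agent.PP.KF
open Pool.Agent.PP.K9 Pool.Agent.PP.K9.H97 Pool.Agent.PP.H75 Pool.Agent.PP.T3 Pool.Agent.PP.SO
open Pool.Agent.PP.SD Pool.Agent.PP.SE

attribute [local instance] Ideal.Quotient.field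

theorem rpv_conj {V₀ : Type} [CommGroup V₀] [Finite V₀] {s : V₀ → ℂ} (hs : s ∈ lin V₀) (v : V₀) :
    s v * starRingEnd ℂ (s v) = 1 := by
  have hpow : ∀ n : ℕ, s (v ^ n) = s v ^ n := by
    intro n
    induction n with
    | zero => rw [pow_zero, pow_zero, hs.1]
    | succ n ih => rw [pow_succ, pow_succ, hs.2, ih]
  have h1 : s v ^ Nat.card V₀ = 1 := by
    rw [← hpow, pow_card_eq_one', hs.1]
  have h2 : ‖s v‖ = 1 := Complex.norm_eq_one_of_pow_eq_one h1 Nat.card_pos.ne'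
  rw [Complex.mul_conj, Complex.normSq_eq_norm_sq, h2]
  norm_num

theorem rpv_lk {V₀ : Type} [CommGroup V₀] {W : Subgroup V₀} {s s' : V₀ → ℂ}
    (hs : s ∈ lk W) (hs' : s' ∈ lk W) : (fun v => s v * starRingEnd ℂ (s' v)) ∈ lk W := by
  refine ⟨⟨?_, ?_⟩, ?_⟩
  · simp [hs.1.1, hs'.1.1]
  · intro v w
    simp only [hs.1.2, hs'.1.2, map_mul]
    ring
  · intro w hw
    simp [hs.2 w hw, hs'.2 w hw]

theorem rpv_ne {V₀ : Type} [CommGroup V₀] [Finite V₀] {s s' : V₀ → ℂ}
    (hs' : s' ∈ lin V₀) (h : s ≠ s') : (fun v => s v * starRingEnd ℂ (s' v)) ≠ fun _ => 1 := by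
  intro he
  apply h
  funext v
  have h1 : s v * starRingEnd ℂ (s' v) = 1 := congrFun he v
  have h2 := rpv_conj hs' v
  have h3 : starRingEnd ℂ (s' v) ≠ 0 := by
    intro h0
    rw [h0, mul_zero] at h2
    exact zero_ne_one h2
  exact mul_right_cancel₀ h3 (h1.trans h2.symm)

theorem rpv (gea : GeaStmt) (gec : GecStmt) (rps : RpsStmt) (vxm : VxmStmt) : RpvStmt := by
  classical
  intro ℓ _ M _ hM hℓ V₀ G _ _ _ _ E₀ hE B hB W hW ν hν N e O hL χ hχ ψ hψ
  have _i : Fintype V₀ := Fintype.ofFinite V₀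
  have hlp : ℓ.Prime := Fact.out
  have hl0 : (ℓ : ℂ) ≠ 0 := by exact_mod_cast hlp.ne_zero
  have hn0 : (nS E₀ W : ℂ) ≠ 0 := by
    have := hW.2
    exact_mod_cast (by omega : nS E₀ W ≠ 0)
  obtain ⟨⟨-, -, -, hk, hWk, -, -, -⟩, hpr1, hprm, hprW, hprk, -⟩ := gea ℓ V₀ E₀ hE W hW
  obtain ⟨-, -, -, -, -, -, -, -, horb, hcard, -, hsum, -⟩ := gec ℓ V₀ E₀ hE W hW
  set n : ℕ := nS E₀ W with hn
  set k : Subgroup V₀ := kW E₀ W with hkdef
  set K1 : Finset V₀ := Finset.univ.filter (fun y => y ∈ k ∧ y ≠ 1) with hK1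
  have hKK : Finset.univ.filter (fun y => y ∈ k) = insert (1 : V₀) K1 := by
    ext y
    simp only [hK1, Finset.mem_filter, Finset.mem_univ, true_and, Finset.mem_insert]
    constructor
    · intro h
      by_cases hy : y = 1
      · exact Or.inl hy
      · exact Or.inr ⟨h, hy⟩
    · rintro (rfl | h)
      · exact k.one_mem
      · exact h.1
  have h1K : (1 : V₀) ∉ K1 := by
    simp [hK1]
  have hcardk : (Finset.univ.filter (fun y => y ∈ k)).card = ℓ := by
    rw [← hk]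
    rw [Nat.card_eq_fintype_card, Fintype.card_subtype]
  have hcardW : (Finset.univ.filter (fun y => y ∈ W)).card = ℓ := by
    rw [← hW.1]
    rw [Nat.card_eq_fintype_card, Fintype.card_subtype]
  have hK1card : (K1.card : ℂ) = ℓ - 1 := by
    have h1 : K1.card + 1 = ℓ := by
      rw [← hcardk, hKK, Finset.card_insert_of_notMem h1K]
    rw [← h1]
    push_cast
    ring
  -- sums of linear characters
  have hsum1 : ∀ s ∈ lk W, s ≠ (fun _ => 1) → ∑ y ∈ K1, s y = -1 := by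
    intro s hs hs1
    have h1 := hsum s hs hs1
    have h2 : (k : Set V₀) = ↑(Finset.univ.filter (fun y => y ∈ k)) := by
      ext y
      simp
    rw [h2, finsum_mem_coe_finset, hKK, Finset.sum_insert h1K, hs.1.1] at h1
    linear_combination h1
  have hsum2 : ∀ s ∈ lk W, ∀ s' ∈ lk W, ∑ y ∈ K1, s y * starRingEnd ℂ (s' y) =
      (if s = s' then (ℓ : ℂ) else 0) - 1 := by
    intro s hs s' hs'
    by_cases h : s = s'
    · subst h
      rw [if_pos rfl, Finset.sum_congr rfl fun y _ => rpv_conj hs.1 y, Finset.sum_const,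
        nsmul_eq_mul, mul_one, hK1card]
    · rw [if_neg h, hsum1 _ (rpv_lk hs hs') (rpv_ne hs'.1 h)]
      ring
  -- reduction to `k`
  have key : ∀ χ ∈ Iv B W ν, ∀ ψ ∈ Iv B W ν, ∀ A : ℂ,
      ∑ y ∈ K1, vx B χ y * starRingEnd ℂ (vx B ψ y) = A →
      rip ℓ B W χ ψ = ((if χ = ψ then 1 else 0) - A / (ℓ * n)) / ℓ := by
    intro χ hχ ψ hψ A hA
    have h1 := rps ℓ M hM hℓ V₀ G E₀ hE B hB W hW ν hν χ hχ ψ hψ
    obtain ⟨-, ⟨hχ1, -, -, -, -, hχ2⟩, -⟩ := vxm ℓ M hM hℓ V₀ G E₀ hE B hB W hW χ hχ.1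
    obtain ⟨-, ⟨hψ1, -, -, -, -, hψ2⟩, -⟩ := vxm ℓ M hM hℓ V₀ G E₀ hE B hB W hW ψ hψ.1
    have h2 : ∑ᶠ x ∈ {x : V₀ | x ∉ W}, vx B χ x * starRingEnd ℂ (vx B ψ x) = ℓ * A := by
      have e1 : {x : V₀ | x ∉ W} = ↑(Finset.univ.filter (fun x => x ∉ W)) := by
        ext y
        simp
      rw [e1, finsum_mem_coe_finset]
      have e2 : ∑ x ∈ Finset.univ.filter (fun x => x ∉ W), vx B χ x * starRingEnd ℂ (vx B ψ x) =
          ∑ p ∈ (Finset.univ.filter (fun y => y ∈ W)) ×ˢ K1,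
            vx B χ (p.1 * p.2) * starRingEnd ℂ (vx B ψ (p.1 * p.2)) := by
        refine Finset.sum_bij' (fun x _ => (pr ℓ E₀ W x, x * (pr ℓ E₀ W x)⁻¹))
          (fun p _ => p.1 * p.2) ?_ ?_ ?_ ?_ ?_
        · intro x hx
          have hx' : x ∉ W := (Finset.mem_filter.1 hx).2
          refine Finset.mem_product.2 ⟨Finset.mem_filter.2 ⟨Finset.mem_univ _, (hpr1 x).1⟩,
            Finset.mem_filter.2 ⟨Finset.mem_univ _, (hpr1 x).2, ?_⟩⟩
          intro h
          apply hx'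
          rw [mul_inv_eq_one.1 h]
          exact (hpr1 x).1
        · rintro ⟨w, y⟩ hp
          obtain ⟨hw, hy⟩ := Finset.mem_product.1 hp
          have hw' : w ∈ W := (Finset.mem_filter.1 hw).2
          have hy' : y ∈ k ∧ y ≠ 1 := (Finset.mem_filter.1 hy).2
          refine Finset.mem_filter.2 ⟨Finset.mem_univ _, fun h => hy'.2 ?_⟩
          have h3 : y ∈ W := (Subgroup.mul_mem_cancel_left W hw').1 h
          have h4 : y ∈ W ⊓ k := ⟨h3, hy'.1⟩
          rw [hWk] at h4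
          exact Subgroup.mem_bot.1 h4
        · intro x hx
          change pr ℓ E₀ W x * (x * (pr ℓ E₀ W x)⁻¹) = x
          rw [mul_comm x, mul_inv_cancel_left]
        · rintro ⟨w, y⟩ hp
          obtain ⟨hw, hy⟩ := Finset.mem_product.1 hp
          have hw' : w ∈ W := (Finset.mem_filter.1 hw).2
          have hy' : y ∈ k ∧ y ≠ 1 := (Finset.mem_filter.1 hy).2
          have h3 : pr ℓ E₀ W (w * y) = w := by
            rw [hprm, hprW w hw', hprk y hy'.1, mul_one]
          change (pr ℓ E₀ W (w * y), w * y * (pr ℓ E₀ W (w * y))⁻¹) = (w, y)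
          rw [h3, mul_comm w y, mul_inv_cancel_right]
        · intro x hx
          change vx B χ x * starRingEnd ℂ (vx B ψ x) =
            vx B χ (pr ℓ E₀ W x * (x * (pr ℓ E₀ W x)⁻¹)) *
              starRingEnd ℂ (vx B ψ (pr ℓ E₀ W x * (x * (pr ℓ E₀ W x)⁻¹)))
          rw [mul_comm x (pr ℓ E₀ W x)⁻¹, mul_inv_cancel_left]
      rw [e2, Finset.sum_product]
      have e3 : ∀ w ∈ Finset.univ.filter (fun y => y ∈ W), ∑ y ∈ K1,
          vx B χ (w * y) * starRingEnd ℂ (vx B ψ (w * y)) = A := by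
        intro w hw
        have hw' : w ∈ W := (Finset.mem_filter.1 hw).2
        rw [← hA]
        apply Finset.sum_congr rfl
        intro y _
        rw [hχ1 w hw', hψ1 w hw', map_mul, hχ.2 w hw', hψ.2 w hw']
        have h5 := hψ2 w hw'
        rw [← h5.1, hψ.2 w hw'] at h5
        have h6 := h5.2
        linear_combination (vx B χ y * starRingEnd ℂ (vx B ψ y)) * h6
      rw [Finset.sum_congr rfl e3, Finset.sum_const, hcardW, nsmul_eq_mul]
    rw [h2, ← hn] at h1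
    rw [eq_div_iff hl0, ← h1]
    field_simp
    ring
  -- the orbits
  have hfinO : ∀ χ ∈ Iv B W ν, χ ∉ N → ∃ F : Finset (V₀ → ℂ), (O χ = ↑F) ∧ F.card = n ∧
      ∀ s ∈ F, s ∈ lk W ∧ s ≠ (fun _ => 1) ∧ orb E₀ W s = O χ := by
    intro χ hχ hχN
    obtain ⟨⟨s, hs, hs1, hO⟩, -⟩ := hL.vX χ hχ hχN
    obtain ⟨hc, hss, hst⟩ := hcard s hs hs1
    have hpos : 0 < n := by
      have := hW.2
      omega
    have hf : (O χ).Finite := by
      rw [hO]
      exact Set.finite_of_ncard_pos (by rw [hc]; exact hpos)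
    refine ⟨hf.toFinset, by simp, ?_, ?_⟩
    · rw [← Set.ncard_eq_toFinset_card _ hf, hO, hc]
    · intro t ht
      rw [Set.Finite.mem_toFinset, hO] at ht
      refine ⟨?_, ?_, by rw [hst t ht, hO]⟩
      · obtain ⟨τ, hτ, rfl⟩ := ht
        exact (horb s hs τ hτ).1
      · obtain ⟨τ, hτ, rfl⟩ := ht
        exact ((horb s hs τ hτ).2 hs1).1
  have hsg : ∀ χ ∈ Iv B W ν, ((e χ : ℂ) * e χ = 1) ∧ starRingEnd ℂ (e χ : ℂ) = e χ := by
    intro χ hχ
    rcases hL.sg χ hχ with h | h <;> rw [h] <;> norm_num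
  have hmem : ∀ y ∈ K1, y ∈ k ∧ y ≠ 1 := fun y hy => (Finset.mem_filter.1 hy).2
  refine ⟨fun h1 h2 => ?_, fun h1 h2 => ?_, fun h1 h2 => ?_⟩
  · rw [key χ hχ ψ hψ (e χ * e ψ * (ℓ - 1))]
    · by_cases h : χ = ψ
      · subst h
        rw [if_pos rfl]
        have h3 := (hsg χ hχ).1
        field_simp
        linear_combination (-(ℓ : ℂ) * n) * h3
      · rw [if_neg h]
        field_simp
        ring
    · have h3 : ∀ y ∈ K1, vx B χ y * starRingEnd ℂ (vx B ψ y) = e χ * e ψ := by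
        intro y hy
        rw [hL.vN χ hχ h1 y (hmem y hy).1 (hmem y hy).2, hL.vN ψ hψ h2 y (hmem y hy).1 (hmem y hy).2,
          (hsg ψ hψ).2]
      rw [Finset.sum_congr rfl h3, Finset.sum_const, nsmul_eq_mul, hK1card]
      ring
  · have hne : χ ≠ ψ := by
      rintro rfl
      exact h2 h1
    obtain ⟨F, hF1, hF2, hF3⟩ := hfinO ψ hψ h2
    have hO : ∀ y, ∑ᶠ s ∈ O ψ, s y = ∑ s ∈ F, s y := by
      intro y
      rw [hF1, finsum_mem_coe_finset]
    have hA : ∑ y ∈ K1, ∑ s ∈ F, s y = -n := by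
      rw [Finset.sum_comm, Finset.sum_congr rfl fun s hs => hsum1 s (hF3 s hs).1 (hF3 s hs).2.1,
        Finset.sum_const, hF2, nsmul_eq_mul]
      ring
    have hA' : ∑ y ∈ K1, starRingEnd ℂ (∑ s ∈ F, s y) = -n := by
      rw [← map_sum, hA]
      simp
    constructor
    · rw [key χ hχ ψ hψ (e χ * e ψ * (-n)), if_neg hne]
      · field_simp
        ring
      · have h3 : ∀ y ∈ K1, vx B χ y * starRingEnd ℂ (vx B ψ y) =
            e χ * e ψ * starRingEnd ℂ (∑ s ∈ F, s y) := by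
          intro y hy
          rw [hL.vN χ hχ h1 y (hmem y hy).1 (hmem y hy).2,
            (hL.vX ψ hψ h2).2 y (hmem y hy).1 (hmem y hy).2, map_mul, (hsg ψ hψ).2, hO]
          ring
        rw [Finset.sum_congr rfl h3, ← Finset.mul_sum, hA']
    · rw [key ψ hψ χ hχ (e χ * e ψ * (-n)), if_neg (Ne.symm hne)]
      · field_simp
        ring
      · have h3 : ∀ y ∈ K1, vx B ψ y * starRingEnd ℂ (vx B χ y) =
            e χ * e ψ * (∑ s ∈ F, s y) := by
          intro y hy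
          rw [hL.vN χ hχ h1 y (hmem y hy).1 (hmem y hy).2,
            (hL.vX ψ hψ h2).2 y (hmem y hy).1 (hmem y hy).2, (hsg χ hχ).2, hO]
          ring
        rw [Finset.sum_congr rfl h3, ← Finset.mul_sum, hA]
  · obtain ⟨F, hF1, hF2, hF3⟩ := hfinO χ hχ h1
    obtain ⟨F', hF1', hF2', hF3'⟩ := hfinO ψ hψ h2
    have hO : ∀ y, ∑ᶠ s ∈ O χ, s y = ∑ s ∈ F, s y := by
      intro y
      rw [hF1, finsum_mem_coe_finset]
    have hO' : ∀ y, ∑ᶠ s ∈ O ψ, s y = ∑ s ∈ F', s y := by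
      intro y
      rw [hF1', finsum_mem_coe_finset]
    have hiff : O χ = O ψ ↔ χ = ψ := by
      constructor
      · intro h
        obtain ⟨⟨s, hs, hs1, hOs⟩, -⟩ := hL.vX χ hχ h1
        obtain ⟨θ, -, hu⟩ := hL.bX s hs hs1
        rw [hu χ ⟨hχ, h1, hOs⟩, hu ψ ⟨hψ, h2, by rw [← h, hOs]⟩]
      · rintro rfl
        rfl
    have hA : ∑ y ∈ K1, (∑ s ∈ F, s y) * starRingEnd ℂ (∑ s ∈ F', s y) =
        ℓ * n * (if χ = ψ then 1 else 0) - n * n := by
      have e1 : ∀ y ∈ K1, (∑ s ∈ F, s y) * starRingEnd ℂ (∑ s ∈ F', s y) =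
          ∑ s ∈ F, ∑ s' ∈ F', s y * starRingEnd ℂ (s' y) := by
        intro y _
        rw [map_sum, Finset.sum_mul_sum]
      rw [Finset.sum_congr rfl e1, Finset.sum_comm]
      have e2 : ∀ s ∈ F, ∑ y ∈ K1, ∑ s' ∈ F', s y * starRingEnd ℂ (s' y) =
          ℓ * (if χ = ψ then 1 else 0) - n := by
        intro s hs
        rw [Finset.sum_comm, Finset.sum_congr rfl fun s' hs' => hsum2 s (hF3 s hs).1 s'
          (hF3' s' hs').1, Finset.sum_sub_distrib, Finset.sum_const, hF2', Finset.sum_ite_eq,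
          nsmul_eq_mul, mul_one]
        congr 1
        by_cases h : χ = ψ
        · have h3 : s ∈ F' := by
            have h4 : s ∈ O χ := by
              rw [hF1]
              exact hs
            rw [hiff.2 h, hF1'] at h4
            exact h4
          rw [if_pos h, if_pos h3, mul_one]
        · have h3 : s ∉ F' := by
            intro h4
            apply h
            rw [← hiff, ← (hF3 s hs).2.2, ← (hF3' s h4).2.2]
          rw [if_neg h, if_neg h3, mul_zero]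
      rw [Finset.sum_congr rfl e2, Finset.sum_const, hF2, nsmul_eq_mul]
      ring
    rw [key χ hχ ψ hψ (e χ * e ψ * (ℓ * n * (if χ = ψ then 1 else 0) - n * n))]
    · by_cases h : χ = ψ
      · subst h
        simp only [if_true]
        have h3 := (hsg χ hχ).1
        field_simp
        linear_combination (-(ℓ : ℂ)) * h3
      · simp only [if_neg h]
        field_simp
        ring
    · have h3 : ∀ y ∈ K1, vx B χ y * starRingEnd ℂ (vx B ψ y) =
          e χ * e ψ * ((∑ s ∈ F, s y) * starRingEnd ℂ (∑ s ∈ F', s y)) := by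
        intro y hy
        rw [(hL.vX χ hχ h1).2 y (hmem y hy).1 (hmem y hy).2,
          (hL.vX ψ hψ h2).2 y (hmem y hy).1 (hmem y hy).2, map_mul, (hsg ψ hψ).2, hO, hO']
        ring
      rw [Finset.sum_congr rfl h3, ← Finset.mul_sum, hA]

end Pool.Agent.PP.SE.H86
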